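import Pool.Agent.PFJ.StmtsG

/-!
# PFJ, row G_DEC: uniqueness of the factors
-/

set_option autoImplicit false

open Matrix Filter Topology

namespace Pool.Agent.PFJ.H3

open Pool.Agent.PFS Pool.Agent.PFJ

section

variable {n : ℕ} {C : Set (V n)} {Γ : Subgroup (GL (Fin n) ℝ)} {K : ℕ}
  {L : Fin K → Submodule ℝ (V n)} {w : Fin K → V n} {β : Fin K → Fin K}

/-- an element of the subspace below an element of a factor lies in the factor -/
theorem below (hP : PCone C) (hB : Box C Γ L w β)
    (h5 : ∀ x, x ∈ (⨆ a, L a) ↔ ∃ y : Fin K → V n, (∀ a, y a ∈ L a) ∧ ∑ a, y a = x)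
    {a : Fin K} {x y : V n} (hx : x ∈ L a) (hy : y ∈ ⨆ a, L a) (hyc : y ∈ closure C)
    (hxy : x - y ∈ closure C) : y ∈ L a := by
  classical
  obtain ⟨q, hq, hqy⟩ := (h5 y).mp hy
  have hqc := hB.comp q hq (by rw [hqy]; exact hyc)
  have h1 : ∀ c, (fun c => (if c = a then x else 0) - q c) c ∈ L c := by
    intro c
    by_cases h : c = a
    · subst h
      simp only [if_true]
      exact Submodule.sub_mem _ hx (hq _)
    · simp only [if_neg h]
      exact Submodule.sub_mem _ (L c).zero_mem (hq c)
  have h2 : ∑ c, (fun c => (if c = a then x else 0) - q c) c = x - y := by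
    simp only [Finset.sum_sub_distrib, Finset.sum_ite_eq', Finset.mem_univ, if_true, hqy]
  have h3 := hB.comp _ h1 (by rw [h2]; exact hxy)
  have h4 : ∀ c, c ≠ a → q c = 0 := by
    intro c hc
    have h4 := h3 c
    simp only [if_neg hc, zero_sub] at h4
    exact hP.salient _ (hqc c) h4
  have h5' : y = q a := by
    rw [← hqy, Finset.sum_eq_single a]
    · intro c _ hc
      exact h4 c hc
    · intro h
      exact absurd (Finset.mem_univ a) h
  rw [h5']
  exact hq a

/-- the factors are independent -/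
theorem disj (h6 : ∀ y : Fin K → V n, (∀ a, y a ∈ L a) → ∑ a, y a = 0 → ∀ a, y a = 0)
    {a b : Fin K} (hab : a ≠ b) {x : V n} (ha : x ∈ L a) (hb : x ∈ L b) : x = 0 := by
  classical
  have h1 : ∀ c, (fun c => (if c = a then x else 0) - (if c = b then x else 0)) c ∈ L c := by
    intro c
    by_cases h : c = a
    · subst h
      simp only [if_true, if_neg hab, sub_zero]
      exact ha
    · by_cases h' : c = b
      · subst h'
        simp only [if_neg h, if_true]
        exact Submodule.sub_mem _ (L c).zero_mem hb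
      · simp only [if_neg h, if_neg h', sub_zero]
        exact (L c).zero_mem
  have h2 : ∑ c, (fun c => (if c = a then x else 0) - (if c = b then x else 0)) c = 0 := by
    simp only [Finset.sum_sub_distrib, Finset.sum_ite_eq', Finset.mem_univ, if_true, sub_self]
  have h3 := h6 _ h1 h2 a
  simp only [if_true, if_neg hab, sub_zero] at h3
  exact h3

theorem dep {p y : V n} (hy : y ≠ 0) (h : ¬ Ind2 p y) : ∃ c : ℝ, p = c • y := by
  simp only [Ind2, not_forall] at h
  obtain ⟨α, γ, h1, h2⟩ := h
  by_cases hα : α = 0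
  · subst hα
    rw [zero_smul, zero_add] at h1
    have hγ : γ = 0 := (smul_eq_zero.mp h1).resolve_right hy
    exact absurd ⟨rfl, hγ⟩ h2
  · refine ⟨-(γ / α), ?_⟩
    have h3 : α • p = (-γ) • y := by
      have : α • p = (α • p + γ • y) + (-γ) • y := by module
      rw [this, h1, zero_add]
    calc p = (α⁻¹ * α) • p := by rw [inv_mul_cancel₀ hα, one_smul]
      _ = α⁻¹ • (α • p) := by rw [smul_smul]
      _ = -(γ / α) • y := by
        rw [h3, smul_smul]
        congr 1
        field_simp

theorem unit_self (hP : PCone C) {u : V n} (hu : u ∈ closure C) : u ∈ Face C u := by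
  refine ⟨1 / 2, by norm_num, ?_, ?_⟩ <;>
  · have : u - (1 / 2 : ℝ) • u = (1 / 2 : ℝ) • u := by module
    rw [this]
    exact hP.cl_smul hu (by norm_num)

end

theorem sub (hBOA : BoaStmt) (hFCU : FcuStmt) (n : ℕ) (C : Set (V n))
    (Γ : Subgroup (GL (Fin n) ℝ)) (hC : CC C Γ) (K : ℕ) (hK : 3 ≤ K)
    (L : Fin K → Submodule ℝ (V n)) (w : Fin K → V n) (β : Fin K → Fin K)
    (L' : Fin K → Submodule ℝ (V n)) (w' : Fin K → V n) (β' : Fin K → Fin K)
    (hB : Box C Γ L w β) (hB' : Box C Γ L' w' β') (hF : Full C (⨆ a, L a)) (hS : Strict C L)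
    (hW : (⨆ a, L a) = (⨆ a, L' a)) (a : Fin K) (ha : L a ≠ ⊥) : ∃ b, L a ≤ L' b := by
  classical
  obtain ⟨-, -, -, -, h5, h6⟩ := hBOA n C Γ hC K L w β hB
  obtain ⟨-, -, -, -, h5', h6'⟩ := hBOA n C Γ hC K L' w' β' hB'
  have hP : PCone C := hC.toPCone
  obtain ⟨i0, hi0⟩ : ∃ i0, β i0 = a := by
    by_contra h
    push Not at h
    exact ha (hB.bot a h)
  subst hi0
  obtain ⟨huc, huC, hu0, hunit, -, -⟩ := hFCU n C Γ hC K hK L w β hB hF i0 _ rfl
  set u : V n := ∑ i ∈ Finset.univ.filter (fun i => β i = β i0), w i with hu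
  have hU : Unt C (L (β i0)) u := (hunit u).mp (unit_self hP huc)
  have huL : u ∈ L (β i0) := hU.1
  have hLW : ∀ c, L c ≤ ⨆ a, L a := fun c => le_iSup L c
  have hLW' : ∀ c, L' c ≤ ⨆ a, L a := fun c => by rw [hW]; exact le_iSup L' c
  -- it is enough that the unit lies in a factor
  have hred : ∀ b, u ∈ L' b → L (β i0) ≤ L' b := by
    intro b hub z hz
    obtain ⟨M, hM, h1⟩ := hU.2.2 z hz
    have h2 : M • u - z ∈ L (β i0) := Submodule.sub_mem _ (Submodule.smul_mem _ _ huL) hz
    obtain ⟨M', hM', h3⟩ := hU.2.2 _ h2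
    have h4 : M • u - z ∈ L' b := by
      apply below hP hB' h5' (x := M' • u) (Submodule.smul_mem _ _ hub) _ h1 h3
      rw [← hW]
      exact hLW _ h2
    have h5 : z = M • u - (M • u - z) := by abel
    rw [h5]
    exact Submodule.sub_mem _ (Submodule.smul_mem _ _ hub) h4
  -- components of positive elements of the factor
  have hcomp : ∀ z ∈ L (β i0), z ∈ closure C → ∃ q : Fin K → V n, (∀ c, q c ∈ L' c) ∧
      ∑ c, q c = z ∧ (∀ c, q c ∈ closure C) ∧ ∀ c, q c ∈ L (β i0) := by
    intro z hz hzc
    have hzW : z ∈ ⨆ a, L' a := by rw [← hW]; exact hLW _ hz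
    obtain ⟨q, hq, hqz⟩ := (h5' z).mp hzW
    have hqc := hB'.comp q hq (by rw [hqz]; exact hzc)
    refine ⟨q, hq, hqz, hqc, fun c => ?_⟩
    apply below hP hB h5 hz (hLW' c (hq c)) (hqc c)
    have h1 : z - q c = ∑ b ∈ Finset.univ.erase c, q b := by
      rw [← hqz, ← Finset.add_sum_erase _ _ (Finset.mem_univ c)]
      abel
    rw [h1]
    exact hP.cl_sum (fun b _ => hqc b)
  obtain ⟨y, hy, hyu, hyc, hyL⟩ := hcomp u huL huc
  obtain ⟨b, hb⟩ : ∃ b, y b ≠ 0 := by
    by_contra h
    push Not at h
    apply hu0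
    rw [← hyu]
    exact Finset.sum_eq_zero (fun c _ => h c)
  by_cases hone : ∀ d, d ≠ b → y d = 0
  · refine ⟨b, hred b ?_⟩
    have h1 : u = y b := by
      rw [← hyu, Finset.sum_eq_single b]
      · intro c _ hc
        exact hone c hc
      · intro h
        exact absurd (Finset.mem_univ b) h
    rw [h1]
    exact hy b
  exfalso
  push Not at hone
  obtain ⟨d, hdb, hd⟩ := hone
  have hind : Ind2 (y b) (y d) := by
    intro α γ h
    have h1 : α • y b ∈ L' b := Submodule.smul_mem _ _ (hy b)
    have h2 : α • y b ∈ L' d := by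
      have : α • y b = (-γ) • y d := by
        have : α • y b = (α • y b + γ • y d) + (-γ) • y d := by module
        rw [this, h, zero_add]
      rw [this]
      exact Submodule.smul_mem _ _ (hy d)
    have h3 := disj h6' (Ne.symm hdb) h1 h2
    have h4 : α = 0 := (smul_eq_zero.mp h3).resolve_right hb
    rw [h3, zero_add] at h
    exact ⟨h4, (smul_eq_zero.mp h).resolve_right hd⟩
  -- an independent positive element in the same small factor is impossible
  have himp : ∀ e f : Fin K, e ≠ f → y f ≠ 0 → ∀ p ∈ L (β i0), p ∈ closure C → p ∈ L' e →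
      ¬ Ind2 p (y e) := by
    intro e f hef hyf p hpL hpc hpe hI
    have h1 := hS (β i0) p hpL (y e) (hyL e) hpc (hyc e) hI
    obtain ⟨M, hM, h2⟩ := h1.2.2 (y f) (hyL f)
    have h3 : y f ∈ L' e := by
      apply below hP hB' h5' (x := M • (p + y e))
        (Submodule.smul_mem _ _ (Submodule.add_mem _ hpe (hy e))) _ (hyc f) h2
      rw [← hW]
      exact hLW' f (hy f)
    exact hyf (disj h6' hef h3 (hy f))
  by_cases hsing : ∀ j, β j = β i0 → j = i0
  · obtain ⟨c, hc⟩ := hB.one i0 hsing (y b) (hyL b)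
    obtain ⟨c', hc'⟩ := hB.one i0 hsing (y d) (hyL d)
    have h1 : c' • y b + (-c) • y d = 0 := by
      rw [hc, hc']
      module
    have h2 := (hind _ _ h1).1
    apply hd
    rw [hc', h2, zero_smul]
  · push Not at hsing
    obtain ⟨j, hj, hji⟩ := hsing
    have hfr := hB.two i0 j (Ne.symm hji) hj.symm
    have hunit2 := hS (β i0) (y b) (hyL b) (y d) (hyL d) (hyc b) (hyc d) hind
    have hspan : ∀ z ∈ L (β i0), z ∈ closure C → z ∈ Submodule.span ℝ ({y b, y d} : Set (V n)) := by
      intro z hz hzc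
      obtain ⟨q, hq, hqz, hqc, hqL⟩ := hcomp z hz hzc
      obtain ⟨M, hM, h1⟩ := hunit2.2.2 z hz
      have h2 : ∀ c, (fun c => ((if c = b then M • y b else 0) + (if c = d then M • y d else 0))
          - q c) c ∈ L' c := by
        intro c
        apply Submodule.sub_mem _ _ (hq c)
        apply Submodule.add_mem
        · split_ifs with h
          · subst h
            exact Submodule.smul_mem _ _ (hy _)
          · exact Submodule.zero_mem _
        · split_ifs with h
          · subst h
            exact Submodule.smul_mem _ _ (hy _)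
          · exact Submodule.zero_mem _
      have h3 : ∑ c, (fun c => ((if c = b then M • y b else 0) + (if c = d then M • y d else 0))
          - q c) c = M • (y b + y d) - z := by
        simp only [Finset.sum_sub_distrib, Finset.sum_add_distrib, Finset.sum_ite_eq',
          Finset.mem_univ, if_true, hqz, smul_add]
      have h4 := hB'.comp _ h2 (by rw [h3]; exact h1)
      have h5 : ∀ c, c ≠ b → c ≠ d → q c = 0 := by
        intro c hcb hcd
        have h5 := h4 c
        simp only [if_neg hcb, if_neg hcd, add_zero, zero_sub] at h5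
        exact hP.salient _ (hqc c) h5
      have h6 : z = q b + q d := by
        rw [← hqz, ← Finset.add_sum_erase _ _ (Finset.mem_univ b)]
        congr 1
        rw [Finset.sum_eq_single d]
        · intro c hc hcd
          exact h5 c (Finset.ne_of_mem_erase hc) hcd
        · intro h
          exact absurd (Finset.mem_erase.mpr ⟨hdb, Finset.mem_univ d⟩) h
      obtain ⟨c1, hc1⟩ := dep hb (himp b d (Ne.symm hdb) hd (q b) (hqL b) (hqc b) (hq b))
      obtain ⟨c2, hc2⟩ := dep hd (himp d b hdb hb (q d) (hqL d) (hqc d) (hq d))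
      rw [h6, hc1, hc2]
      exact Submodule.add_mem _
        (Submodule.smul_mem _ _ (Submodule.subset_span (by simp)))
        (Submodule.smul_mem _ _ (Submodule.subset_span (by simp)))
    have hle : L (β i0) ≤ Submodule.span ℝ ({y b, y d} : Set (V n)) := by
      intro z hz
      obtain ⟨M, hM, h1⟩ := hU.2.2 z hz
      have h2 : M • u - z ∈ L (β i0) := Submodule.sub_mem _ (Submodule.smul_mem _ _ huL) hz
      have h3 : z = M • u - (M • u - z) := by abel
      rw [h3]
      exact Submodule.sub_mem _ (Submodule.smul_mem _ _ (hspan u huL huc)) (hspan _ h2 h1)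
    have h1 : Module.finrank ℝ (L (β i0)) ≤
        Module.finrank ℝ (Submodule.span ℝ ({y b, y d} : Set (V n))) :=
      Submodule.finrank_mono hle
    have h2 : Module.finrank ℝ (Submodule.span ℝ ({y b, y d} : Set (V n))) ≤ 2 := by
      have h3 := finrank_span_finset_le_card (R := ℝ) ({y b, y d} : Finset (V n))
      have h4 : Finset.card ({y b, y d} : Finset (V n)) ≤ 2 := Finset.card_le_two
      have h5 : ((({y b, y d} : Finset (V n)) : Finset (V n)) : Set (V n)) = {y b, y d} := by simp
      rw [h5] at h3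
      exact h3.trans h4
    omega

theorem dec (hBOA : BoaStmt) (hFCU : FcuStmt) : DecStmt := by
  intro n C Γ hC K hK L w β L' w' β' hB hB' hF hS hS' hW a ha
  obtain ⟨-, -, -, -, h5, h6⟩ := hBOA n C Γ hC K L w β hB
  obtain ⟨b, hb⟩ := sub hBOA hFCU n C Γ hC K hK L w β L' w' β' hB hB' hF hS hW a ha
  have hb0 : L' b ≠ ⊥ := by
    intro h
    rw [h] at hb
    exact ha (le_bot_iff.mp hb)
  obtain ⟨c, hc⟩ := sub hBOA hFCU n C Γ hC K hK L' w' β' L w β hB' hB (by rw [← hW]; exact hF) hS'
    hW.symm b hb0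
  have hac : a = c := by
    by_contra hne
    obtain ⟨x, hx, hx0⟩ := Submodule.exists_mem_ne_zero_of_ne_bot ha
    exact hx0 (disj h6 hne hx (hc (hb hx)))
  subst hac
  exact ⟨b, le_antisymm hb hc⟩

end Pool.Agent.PFJ.H3
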