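import Pool.Agent.PFJ.Stmts

/-!
# PFJ, row EXT: extreme rays of a full box
-/

set_option autoImplicit false

open Matrix Filter Topology

namespace Pool.Agent.PFJ.H3

open Pool.Agent.PFS Pool.Agent.PFJ

theorem ext (hBFA : BfaStmt) (hUNF : UnfStmt) (hBCP : BcpStmt) : ExtStmt := by
  classical
  intro n C Γ hP K hK L w β hB hw hF hS
  obtain ⟨b1, b2, b3, b4, b5, b6⟩ := hBFA n C Γ hP K L w β hB
  have hsing : ∀ (a : Fin K) (e : V n), e ∈ L a → ∀ b, (Pi.single a e : Fin K → V n) b ∈ L b := by
    intro a e he b
    by_cases h : b = a
    · subst h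
      rw [Pi.single_eq_same]
      exact he
    · rw [Pi.single_eq_of_ne h]
      exact (L b).zero_mem
  have hsum : ∀ (a : Fin K) (e : V n), ∑ b, (Pi.single a e : Fin K → V n) b = e := by
    intro a e
    rw [Finset.sum_eq_single a]
    · exact Pi.single_eq_same ..
    · intro b _ hb
      exact Pi.single_eq_of_ne hb _
    · intro h
      exact absurd (Finset.mem_univ a) h
  -- elements below an element of a factor
  have hA : ∀ (a : Fin K) (e : V n), e ∈ L a → e ∈ closure C → e ∉ C → ∀ y ∈ closure C, ∀ M : ℝ,
      M • e - y ∈ closure C → y ∈ L a ∧ ∃ M' : ℝ, 0 < M' ∧ M' • e - y ∈ closure C := by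
    intro a e he hec heC y hy M hM
    have h1 : ∀ b, (Pi.single a e : Fin K → V n) b ∈ closure C := by
      intro b
      by_cases h : b = a
      · subst h
        rw [Pi.single_eq_same]
        exact hec
      · rw [Pi.single_eq_of_ne h]
        exact hP.zero_cl
    obtain ⟨M', y', hM', hy', hy2⟩ := hBCP n C Γ hP K L w β hB hF (Pi.single a e)
      (hsing a e he) h1 (by rw [hsum]; exact heC) y hy M (by rw [hsum]; exact hM)
    have h2 : ∀ b, b ≠ a → y' b = 0 := by
      intro b hb
      obtain ⟨-, h3, h4⟩ := hy2 b
      rw [Pi.single_eq_of_ne hb, smul_zero, zero_sub] at h4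
      exact hP.salient _ h3 h4
    have h3 : y = y' a := by
      rw [← hy', Finset.sum_eq_single a]
      · intro b _ hb
        exact h2 b hb
      · intro h
        exact absurd (Finset.mem_univ a) h
    obtain ⟨h4, h5, h6⟩ := hy2 a
    rw [Pi.single_eq_same] at h6
    rw [h3]
    exact ⟨h4, M', hM', h6⟩
  -- vertices are not zero
  have hw0 : ∀ j, w j ≠ 0 := by
    intro j hj
    have h1 := hB.pes.1.pos (fun _ => 1) (fun _ => one_pos)
    have h2 := hB.pes.1.bd (fun i => if i = j then 0 else 1)
      (fun i => by split_ifs <;> norm_num) ⟨j, if_pos rfl⟩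
    apply h2
    have h3 : ∑ i, (if i = j then (0 : ℝ) else 1) • w i = ∑ i, (1 : ℝ) • w i := by
      apply Finset.sum_congr rfl
      intro i _
      by_cases h : i = j
      · rw [h, hj, smul_zero, smul_zero]
      · rw [if_neg h]
    rw [h3]
    exact h1
  have p5 : ∀ j, ¬ Unt C (L (β j)) 0 := by
    intro j h
    obtain ⟨M, hM, h1⟩ := h.2.2 (w j) (hB.mem j)
    rw [smul_zero, zero_sub] at h1
    exact hw0 j (hP.salient _ (hw j) h1)
  have p4 : ∀ i j, i ≠ j → β i = β j → ¬ Unt C (L (β i)) (w i) := by
    intro i j hij hβ hU
    have h1 := hB.pes.1.bd (fun l => if l = j then 0 else 1)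
      (fun l => by split_ifs <;> norm_num) ⟨j, if_pos rfl⟩
    apply h1
    have h2 : ∀ a, (∑ l ∈ Finset.univ.filter (fun l => β l = a),
        (if l = j then (0 : ℝ) else 1) • w l) ∈ L a := by
      intro a
      apply Submodule.sum_mem
      intro l hl
      rw [Finset.mem_filter] at hl
      rw [← hl.2]
      exact Submodule.smul_mem _ _ (hB.mem l)
    have h3 := (b2 (fun a => ∑ l ∈ Finset.univ.filter (fun l => β l = a),
      (if l = j then (0 : ℝ) else 1) • w l) h2).mpr ?_
    · rw [Finset.sum_fiberwise] at h3
      exact h3
    · intro a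
      by_cases ha : a = β i
      · subst ha
        have h4 : ∑ l ∈ Finset.univ.filter (fun l => β l = β i),
            (if l = j then (0 : ℝ) else 1) • w l = w i := by
          rw [Finset.sum_eq_single i]
          · rw [if_neg hij, one_smul]
          · intro l hl hli
            rw [Finset.mem_filter] at hl
            by_cases hlj : l = j
            · rw [if_pos hlj, zero_smul]
            · exfalso
              rcases hB.three l i j hl.2 hβ with h | h | h
              · exact hli h
              · exact hij h
              · exact hlj h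
          · intro h
            apply absurd _ h
            rw [Finset.mem_filter]
            exact ⟨Finset.mem_univ i, rfl⟩
        rw [h4]
        exact hU
      · have h4 : ∑ l ∈ Finset.univ.filter (fun l => β l = a),
            (if l = j then (0 : ℝ) else 1) • w l =
            ∑ l ∈ Finset.univ.filter (fun l => β l = a), w l := by
          apply Finset.sum_congr rfl
          intro l hl
          rw [Finset.mem_filter] at hl
          rw [if_neg, one_smul]
          rintro rfl
          exact ha (by rw [← hl.2, hβ])
        rw [h4]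
        exact b3 a
  have p1 : ∀ a, ∀ e ∈ L a, e ∈ closure C → ¬ Unt C (L a) e → Ext C e := by
    intro a e he hec hU y hy M hM
    have heC : e ∉ C := by
      intro h
      have h1 := (b2 (Pi.single a e) (hsing a e he)).mp (by rw [hsum]; exact h) a
      rw [Pi.single_eq_same] at h1
      exact hU h1
    obtain ⟨hya, M', hM', hMy⟩ := hA a e he hec heC y hy M hM
    by_cases hI : Ind2 e y
    · exfalso
      have h1 := hS a e he y hya hec hy hI
      obtain ⟨u1, u2, -⟩ := hUNF n C hP (L a) (e + y) h1
      have h2 : Unt C (L a) ((1 + M') • e) := by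
        apply u2 _ (Submodule.smul_mem _ _ he)
        have : (1 + M') • e - (e + y) = M' • e - y := by module
        rw [this]
        exact hMy
      obtain ⟨u3, -⟩ := hUNF n C hP (L a) _ h2
      have h3 := u3 (1 + M')⁻¹ (by positivity)
      rw [smul_smul, inv_mul_cancel₀ (by positivity), one_smul] at h3
      exact hU h3
    · simp only [Ind2, not_forall] at hI
      obtain ⟨α, γ, h1, h2⟩ := hI
      by_cases hγ : γ = 0
      · subst hγ
        have hα : α ≠ 0 := fun h => h2 ⟨h, rfl⟩
        rw [zero_smul, add_zero] at h1
        have he0 : e = 0 := (smul_eq_zero.mp h1).resolve_left hα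
        rw [he0, smul_zero, zero_sub] at hMy
        refine ⟨0, ?_⟩
        rw [zero_smul]
        exact hP.salient _ hy hMy
      · refine ⟨-(α / γ), ?_⟩
        have h3 : γ • y = (-α) • e := by
          have : γ • y = (α • e + γ • y) + (-α) • e := by module
          rw [this, h1, zero_add]
        calc y = (γ⁻¹ * γ) • y := by rw [inv_mul_cancel₀ hγ, one_smul]
          _ = γ⁻¹ • (γ • y) := by rw [smul_smul]
          _ = -(α / γ) • e := by
            rw [h3, smul_smul]
            congr 1
            field_simp
  refine ⟨p1, ?_, ?_, p4, p5⟩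
  · intro i
    by_cases h : ∃ j, j ≠ i ∧ β j = β i
    · obtain ⟨j, h1, h2⟩ := h
      exact p1 _ _ (hB.mem i) (hw i) (p4 i j (Ne.symm h1) h2.symm)
    · push Not at h
      have hfib : ∀ j, β j = β i → j = i := by
        intro j hj
        by_contra hne
        exact h j hne hj
      have hwC : w i ∉ C := by
        obtain ⟨j, hj⟩ : ∃ j : Fin K, j ≠ i := by
          have : Nontrivial (Fin K) := Fin.nontrivial_iff_two_le.mpr (by omega)
          exact exists_ne i
        have h1 := hB.pes.1.bd (Pi.single i 1)
          (fun l => by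
            by_cases hl : l = i
            · subst hl
              rw [Pi.single_eq_same]
              exact zero_le_one
            · rw [Pi.single_eq_of_ne hl]) ⟨j, Pi.single_eq_of_ne hj _⟩
        have h2 : ∑ l, (Pi.single i (1 : ℝ) : Fin K → ℝ) l • w l = w i := by
          rw [Finset.sum_eq_single i]
          · rw [Pi.single_eq_same, one_smul]
          · intro l _ hl
            rw [Pi.single_eq_of_ne hl, zero_smul]
          · intro h
            exact absurd (Finset.mem_univ i) h
        rw [h2] at h1
        exact h1
      intro y hy M hM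
      obtain ⟨hya, -⟩ := hA _ _ (hB.mem i) (hw i) hwC y hy M hM
      exact hB.one i hfib y hya
  · intro e he hec hE he0
    obtain ⟨y, hy, hye⟩ := b4 e he
    have hyc := hB.comp y hy (by rw [hye]; exact hec)
    obtain ⟨a, ha⟩ : ∃ a, y a ≠ 0 := by
      by_contra hcon
      push Not at hcon
      apply he0
      rw [← hye]
      exact Finset.sum_eq_zero (fun a _ => hcon a)
    refine ⟨a, ?_⟩
    have h1 : (1 : ℝ) • e - y a ∈ closure C := by
      have h2 : e - y a = ∑ b ∈ Finset.univ.erase a, y b := by
        rw [← hye, ← Finset.add_sum_erase _ _ (Finset.mem_univ a)]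
        abel
      rw [one_smul, h2]
      exact hP.cl_sum (fun b _ => hyc b)
    obtain ⟨c, hc⟩ := hE (y a) (hyc a) 1 h1
    have hc0 : c ≠ 0 := by
      rintro rfl
      apply ha
      rw [hc, zero_smul]
    have h3 : e = c⁻¹ • y a := by
      rw [hc, smul_smul, inv_mul_cancel₀ hc0, one_smul]
    rw [h3]
    exact Submodule.smul_mem _ _ (hy a)

end Pool.Agent.PFJ.H3
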